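import Pool.Agent.Helper15.TS.St

/-! TS MODULE HYP (project TS, MP_434a84_lc): integer equation of a hyperplane. -/

set_option autoImplicit false

namespace Pool.Agent.Helper36.TS
open Pool.Agent.Helper22.FL Pool.Agent.Helper22.CS Pool.Agent.Helper15.TS

theorem spQ_supp (n : ℕ) (I : Finset (Fin n)) (P : Finset (Fin n → ℕ))
    (h : ∀ p ∈ P, letters p ⊆ I) (v : Fin n → ℚ) (hv : v ∈ spQ P) : ∀ i, i ∉ I → v i = 0 := by
  intro i hi
  have h1 : spQ P ≤ LinearMap.ker (LinearMap.proj i : (Fin n → ℚ) →ₗ[ℚ] ℚ) := by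
    refine Submodule.span_le.2 ?_
    rintro _ ⟨p, hp, rfl⟩
    have h2 : p i = 0 := by
      by_contra hne
      exact hi (h p hp (by simp [letters, hne]))
    show (toQ p) i = 0
    simp [toQ, h2]
  exact h1 hv

theorem sthyp : StHYP := by
  classical
  intro n I P h1 h2 h3
  let R : (Fin n → ℚ) →ₗ[ℚ] (I → ℚ) := LinearMap.funLeft ℚ ℚ (Subtype.val : I → Fin n)
  have hR : ∀ x : Fin n → ℚ, ∀ i : I, R x i = x i := fun x i => rfl
  have hinj : Function.Injective (R.domRestrict (spQ P)) := by
    intro x y hxy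
    apply Subtype.ext
    funext i
    by_cases hi : i ∈ I
    · exact congrFun hxy ⟨i, hi⟩
    · rw [spQ_supp n I P h1 x x.2 i hi, spQ_supp n I P h1 y y.2 i hi]
  let V1 : Submodule ℚ (I → ℚ) := LinearMap.range (R.domRestrict (spQ P))
  have hV1 : Module.finrank ℚ V1 = Module.finrank ℚ (spQ P) := LinearMap.finrank_range_of_inj hinj
  have hI : Module.finrank ℚ (I → ℚ) = I.card := by simp
  have hlt : V1 < ⊤ := by
    apply lt_top_iff_ne_top.2
    intro htop
    have : Module.finrank ℚ V1 = I.card := by rw [htop, finrank_top, hI]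
    omega
  obtain ⟨φ, hφ0, hφ⟩ := Submodule.exists_le_ker_of_lt_top V1 hlt
  have hker : Module.finrank ℚ (LinearMap.ker φ) + 1 = I.card := by
    have h4 := LinearMap.finrank_range_add_finrank_ker φ
    have h5 : LinearMap.range φ = ⊤ := LinearMap.range_eq_top.2 (LinearMap.surjective hφ0)
    rw [h5, finrank_top, Module.finrank_self, hI] at h4
    omega
  have hVk : V1 = LinearMap.ker φ := Submodule.eq_of_le_of_finrank_eq hφ (by omega)
  let c : Fin n → ℚ := fun i => if hi : i ∈ I then φ (Pi.single ⟨i, hi⟩ 1) else 0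
  have hφc : ∀ x : Fin n → ℚ, (∀ i, i ∉ I → x i = 0) → φ (R x) = ∑ i, c i * x i := by
    intro x hx
    have h6 : R x = ∑ i : I, (x i) • (Pi.single i 1 : I → ℚ) := by
      funext i
      rw [hR, Finset.sum_apply, Finset.sum_eq_single i]
      · simp
      · intro b _ hb
        simp [Pi.single_apply, Ne.symm hb]
      · simp
    rw [h6, map_sum]
    have h7 : ∑ i, c i * x i = ∑ i ∈ I, c i * x i := by
      symm
      apply Finset.sum_subset (Finset.subset_univ I)
      intro i _ hi
      rw [hx i hi, mul_zero]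
    rw [h7, ← Finset.sum_coe_sort I (fun i => c i * x i)]
    refine Finset.sum_congr rfl fun i _ => ?_
    rw [map_smul, smul_eq_mul, mul_comm]
    congr 1
    show _ = (if hi : (i : Fin n) ∈ I then φ (Pi.single ⟨i, hi⟩ 1) else 0)
    rw [dif_pos i.2]
  obtain ⟨⟨d, hd⟩, hint⟩ := IsLocalization.exist_integer_multiples_of_finite (nonZeroDivisors ℤ) c
  have hd0 : (d : ℚ) ≠ 0 := by
    have : d ≠ 0 := nonZeroDivisors.ne_zero hd
    exact_mod_cast this
  choose α hα using hint
  have hα' : ∀ i, (α i : ℚ) = d * c i := by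
    intro i
    have := hα i
    simpa [zsmul_eq_mul] using this
  refine ⟨α, h1, h2, ?_, ?_⟩
  · by_contra hcon
    push Not at hcon
    apply hφ0
    apply LinearMap.pi_ext'
    intro i
    apply LinearMap.ext_ring
    show φ (Pi.single i 1) = 0
    have h8 := hα' i
    rw [hcon i i.2] at h8
    have h9 : c i = 0 := by
      rcases mul_eq_zero.1 (by simpa using h8.symm : (d : ℚ) * c i = 0) with h | h
      · exact absurd h hd0
      · exact h
    have h10 : c i = φ (Pi.single i 1) := by
      show (if hi : (i : Fin n) ∈ I then φ (Pi.single ⟨i, hi⟩ 1) else 0) = _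
      rw [dif_pos i.2]
    rw [← h10, h9]
  · intro x hx
    have h11 : x ∈ spQ P ↔ R x ∈ V1 := by
      constructor
      · intro h
        exact ⟨⟨x, h⟩, rfl⟩
      · rintro ⟨v, hv⟩
        have h12 : (v : Fin n → ℚ) = x := by
          funext i
          by_cases hi : i ∈ I
          · exact congrFun hv ⟨i, hi⟩
          · rw [spQ_supp n I P h1 v v.2 i hi, hx i hi]
        rw [← h12]
        exact v.2
    rw [h11, hVk, LinearMap.mem_ker, hφc x hx]
    have h13 : ∑ i, (α i : ℚ) * x i = d * ∑ i, c i * x i := by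
      rw [Finset.mul_sum]
      refine Finset.sum_congr rfl fun i _ => ?_
      rw [hα' i, mul_assoc]
    rw [h13]
    constructor
    · intro h; rw [h, mul_zero]
    · intro h
      rcases mul_eq_zero.1 h with h | h
      · exact absurd h hd0
      · exact h

end Pool.Agent.Helper36.TS
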