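import Pool.Agent.Helper12.TS.StB
import Pool.Agent.Helper51.AJ.Basic

/-!
# Project TS, module ACH: case alpha, the quotient is not apex
-/

set_option autoImplicit false

namespace Pool.Agent.Helper36.TS

open Pool.Agent.Helper12.TS
open Pool.Agent.Helper51.AJ (IsMinor Planar Apex ExMinor Con Tch)
open Pool.Agent.Helper12.NK (rst Kc add)

private lemma con_sub {V : Type} {H K : SimpleGraph V} {S : Set V} (hS : Con H S)
    (h : ∀ x ∈ S, ∀ y ∈ S, H.Adj x y → K.Adj x y) : Con K S := by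
  have hS' : (H.induce S).Connected := hS
  refine SimpleGraph.Connected.mono (G := H.induce S) ?_ hS'
  intro x y hxy
  exact h x.1 x.2 y.1 y.2 hxy

private lemma lk_rst {V : Type} {H : SimpleGraph V} {Q : Set V} {a b v : V} (h : Lk H Q a b)
    (ha : a ≠ v) (hb : b ≠ v) (hv : v ∉ Q) : Lk (rst H {v}ᶜ) Q a b := by
  rcases h with h | ⟨P, hPQ, hP, ⟨x, hx, y, hy, hxy⟩, ⟨x', hx', y', hy', hxy'⟩⟩
  · exact Or.inl ⟨h, ha, hb⟩
  · have hvP : ∀ z ∈ P, z ≠ v := fun z hz he => hv (he ▸ hPQ hz)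
    have e1 : x = a := hx
    have e2 : x' = b := hx'
    refine Or.inr ⟨P, hPQ, con_sub hP fun u hu w hw h => ⟨h, hvP u hu, hvP w hw⟩,
      ⟨x, hx, y, hy, hxy, by rw [e1]; exact ha, hvP y hy⟩,
      ⟨x', hx', y', hy', hxy', by rw [e2]; exact hb, hvP y' hy'⟩⟩

theorem hACH : StQUO → StCMP → StLNK → StLKB → StACH := by
  intro hQUO hCMP hLNK hLKB V _ G S A B s ρ hK hS3 hA hB hAB hs hB2 hSt hρ hnp hl1 hl2 v hpl
  obtain ⟨-, -, q3, q4, -⟩ := hQUO V G Set.univ ρ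
  obtain ⟨-, c2, -, c4, -⟩ := hCMP V G S
  have hdAB : Disjoint A B := c2 A B hA hB hAB
  have hSA : ∀ x, x ∈ S → x ∉ A := fun x hx hxA => Set.disjoint_left.1 hA.1 hxA hx
  have hSB : ∀ x, x ∈ S → x ∉ B := fun x hx hxB => Set.disjoint_left.1 hB.1 hxB hx
  have hBA : ∀ x, x ∈ B → x ∉ A := fun x hx hxA => Set.disjoint_left.1 hdAB hxA hx
  set H := quo G Set.univ ρ with hH
  -- edges outside `A`
  have hedge : ∀ x y, x ∉ A → y ∉ A → G.Adj x y → H.Adj x y := by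
    intro x y hx hy h
    exact q3 Aᶜ (Set.subset_univ _) (fun z hz => hρ.off z hz) ⟨h, hx, hy⟩
  have hcard : (S \ {s}).ncard = 2 := by
    have := Set.ncard_sdiff_singleton_of_mem hs
    omega
  obtain ⟨t, t', htt, hT⟩ := Set.ncard_eq_two.1 hcard
  -- the two elements of `T`
  have htS : t ∈ S ∧ t ≠ s := by
    have : t ∈ S \ {s} := by rw [hT]; exact Or.inl rfl
    exact ⟨this.1, fun h => this.2 h⟩
  have htS' : t' ∈ S ∧ t' ≠ s := by
    have : t' ∈ S \ {s} := by rw [hT]; exact Or.inr rfl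
    exact ⟨this.1, fun h => this.2 h⟩
  have hSeq : ∀ x, x ∈ S ↔ x = s ∨ x = t ∨ x = t' := by
    intro x
    constructor
    · intro hx
      by_cases h : x = s
      · exact Or.inl h
      · have h1 : x ∈ S \ {s} := ⟨hx, h⟩
        rw [hT] at h1
        exact Or.inr h1
    · rintro (h | h | h)
      · rw [h]; exact hs
      · rw [h]; exact htS.1
      · rw [h]; exact htS'.1
  -- first argument
  have L1 : v ∉ Rr A ρ ∪ S \ {s} → ∀ P : Set V, (∀ x ∈ P, x ∉ A ∧ x ∉ S \ {s} ∧ x ≠ v) → Con G P →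
      (∀ u ∈ S \ {s}, Tch G {u} P) → False := by
    intro hv P hP hcon ht
    refine hnp ?_
    have hvn : ∀ x ∈ Rr A ρ ∪ S \ {s}, x ≠ v := fun x hx he => hv (he ▸ hx)
    have hlk : ∀ u ∈ S \ {s}, Tch (rst H {v}ᶜ) {u} P := by
      intro u hu
      obtain ⟨x, hx, y, hy, hxy⟩ := ht u hu
      have e1 : x = u := hx
      refine ⟨x, hx, y, hy, hedge x y ?_ (hP y hy).1 hxy, ?_, (hP y hy).2.2⟩
      · rw [e1]; exact hSA u hu.1
      · rw [e1]; exact hvn u (Or.inr hu)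
    have h1 := hLNK V H (rst H {v}ᶜ) (Rr A ρ) P t t' ?_ ?_ (Or.inr ⟨P, le_rfl, ?_, hlk t ?_, hlk t' ?_⟩) hpl
    · rw [hT]
      exact h1
    · intro x y hxy
      rw [← hT] at hxy
      exact ⟨hxy.1, hvn x hxy.2.1, hvn y hxy.2.2⟩
    · rw [← hT, Set.disjoint_left]
      intro x hx h
      rcases h with h | h
      · exact (hP x hx).1 h.1
      · exact (hP x hx).2.1 h
    · refine con_sub (q4 P (Set.subset_univ _) (fun z hz => hρ.off z (hP z hz).1) hcon) ?_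
      intro x hx y hy h
      exact ⟨h, (hP x hx).2.2, (hP y hy).2.2⟩
    · exact ⟨htS.1, htS.2⟩
    · exact ⟨htS'.1, htS'.2⟩
  -- second argument
  have L2 : ∀ a b, (a = t ∧ b = t') ∨ (a = t' ∧ b = t) → ∀ Q ⊆ Rr A ρ, v ∉ Q → v ∉ B → v ≠ s →
      v ≠ a → Lk H Q s a → False := by
    intro a b hab Q hQ hvQ hvB hvs hva hlk
    have haS : a ∈ S ∧ a ≠ s := by
      rcases hab with ⟨h, -⟩ | ⟨h, -⟩
      · rw [h]; exact htS
      · rw [h]; exact htS'
    have hbS : b ∈ S ∧ b ≠ s := by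
      rcases hab with ⟨-, h⟩ | ⟨-, h⟩
      · rw [h]; exact htS'
      · rw [h]; exact htS
    have hne : a ≠ b := by
      rcases hab with ⟨h, h'⟩ | ⟨h, h'⟩
      · rw [h, h']; exact htt
      · rw [h, h']; exact htt.symm
    have hSb : S \ {b} = {s, a} := by
      ext x
      simp only [Set.mem_sdiff, Set.mem_singleton_iff, Set.mem_insert_iff, hSeq]
      rcases hab with ⟨rfl, rfl⟩ | ⟨rfl, rfl⟩
      · constructor
        · tauto
        · rintro (h | h)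
          · exact ⟨Or.inl h, fun h2 => hbS.2 (h2.symm.trans h)⟩
          · exact ⟨Or.inr (Or.inl h), fun h2 => hne (h.symm.trans h2)⟩
      · constructor
        · tauto
        · rintro (h | h)
          · exact ⟨Or.inl h, fun h2 => hbS.2 (h2.symm.trans h)⟩
          · exact ⟨Or.inr (Or.inr h), fun h2 => hne (h.symm.trans h2)⟩
    refine hSt b hbS.1 hbS.2 ?_
    rw [hSb]
    have hmem : ∀ x, x ∈ B ∪ {s, a} → x ∉ A ∧ x ≠ v := by
      rintro x (hx | hx | hx)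
      · exact ⟨hBA x hx, fun h => hvB (h ▸ hx)⟩
      · have hx' : x = s := hx
        rw [hx']
        exact ⟨hSA s hs, hvs.symm⟩
      · have hx' : x = a := hx
        rw [hx']
        exact ⟨hSA a haS.1, hva.symm⟩
    refine hLNK V G (rst H {v}ᶜ) B Q s a ?_ ?_ (lk_rst hlk hvs.symm hva.symm hvQ) hpl
    · intro x y hxy
      exact ⟨hedge x y (hmem x hxy.2.1).1 (hmem y hxy.2.2).1 hxy.1, (hmem x hxy.2.1).2, (hmem y hxy.2.2).2⟩
    · rw [Set.disjoint_left]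
      intro x hx h
      exact (hmem x h).1 (hQ hx).1
  by_cases hvB : v ∈ B
  · obtain ⟨P, hP, hPc, hPt⟩ := hLKB V G S B s v hK hS3 hB hs hvB hB2
    refine L1 ?_ P ?_ hPc fun u hu => hPt u hu.1 hu.2
    · rintro (h | h)
      · exact hBA v hvB h.1
      · exact hSB v h.1 hvB
    · intro x hx
      rcases hP hx with h | h
      · exact ⟨hBA x h.1, fun h2 => hSB x h2.1 h.1, h.2⟩
      · have hx' : x = s := h
        rw [hx']
        exact ⟨hSA s hs, fun h2 => h2.2 rfl, fun h2 => hSB s hs (h2 ▸ hvB)⟩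
  by_cases hvs : v = s
  · refine L1 ?_ B ?_ hB.2.1 fun u hu => c4 hK hS3 B hB u hu.1
    · rw [hvs]
      rintro (h | h)
      · exact hSA s hs h.1
      · exact h.2 rfl
    · intro x hx
      exact ⟨hBA x hx, fun h => hSB x h.1 hx, fun h => hvB (h ▸ hx)⟩
  have hvA : v = t ∨ v = t' → v ∉ Rr A ρ := by
    rintro (h | h) h2
    · exact hSA v (h ▸ htS.1) h2.1
    · exact hSA v (h ▸ htS'.1) h2.1
  by_cases hvt : v = t
  · exact L2 t' t (Or.inr ⟨rfl, rfl⟩) (Rr A ρ) le_rfl (hvA (Or.inl hvt)) hvB hvs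
      (hvt ▸ htt) (hl1 t' ⟨htS'.1, htS'.2⟩)
  by_cases hvt' : v = t'
  · exact L2 t t' (Or.inl ⟨rfl, rfl⟩) (Rr A ρ) le_rfl (hvA (Or.inr hvt')) hvB hvs
      hvt (hl1 t ⟨htS.1, htS.2⟩)
  obtain ⟨u, hu, hlk⟩ := hl2 v
  rw [hT] at hu
  rcases hu with hu | hu
  · have hu' : u = t := hu
    rw [hu'] at hlk
    exact L2 t t' (Or.inl ⟨rfl, rfl⟩) (Rr A ρ \ {v}) Set.sdiff_subset (fun h => h.2 rfl) hvB hvs hvt hlk
  · have hu' : u = t' := hu
    rw [hu'] at hlk
    exact L2 t' t (Or.inr ⟨rfl, rfl⟩) (Rr A ρ \ {v}) Set.sdiff_subset (fun h => h.2 rfl) hvB hvs hvt' hlk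

end Pool.Agent.Helper36.TS
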