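import Pool.Agent.Helper12.TS.StB
import Pool.Agent.Helper51.AJ.Basic

/-!
# Project TS, module BPT: case beta, every part touches
-/

set_option autoImplicit false

namespace Pool.Agent.Helper36.TS

open Pool.Agent.Helper12.TS
open Pool.Agent.Helper51.AJ (IsMinor Planar Apex ExMinor Con Tch)
open Pool.Agent.Helper12.NK (rst Kc add)

private lemma con_sub {V : Type} {H K : SimpleGraph V} {S : Set V} (hS : Con H S)
    (h : ∀ x ∈ S, ∀ y ∈ S, H.Adj x y → K.Adj x y) : Con K S := by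
  have hS' : (H.induce S).Connected := hS
  refine SimpleGraph.Connected.mono (G := H.induce S) ?_ hS'
  intro x y hxy
  exact h x.1 x.2 y.1 y.2 hxy

private lemma con_cen {V : Type} {K : SimpleGraph V} {U : Set V} (c : V) (hc : c ∈ U)
    (h : ∀ x ∈ U, ∃ F ⊆ U, Con K F ∧ c ∈ F ∧ x ∈ F) : Con K U := by
  refine SimpleGraph.induce_connected_of_patches c hc ?_
  intro x hx
  obtain ⟨F, hF, hcon, h1, h2⟩ := h x hx
  have hcon' : (K.induce F).Connected := hcon
  exact ⟨F, hF, h1, h2, hcon'.preconnected _ _⟩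

open Classical in
theorem hBPT : StPTN → StMDQ → StBPT := by
  intro hP hQ V ι _ _ G D S A Γ φ ρ hS3 hAS hD hM hSt s hs
  obtain ⟨-, -, -, -, -, hP6, -, -, -, hP10⟩ := hP
  have hSne : S.Nonempty := ⟨s, hs⟩
  obtain ⟨-, -, m3, -, -, m6, -⟩ := hQ V ι G D A S Γ φ ρ hAS hSne hD hM
  obtain ⟨hcon, hdis, htch⟩ := hM.md
  by_contra hno
  have hcov : ∀ x, x ∈ A ∪ S → ∃ i, x ∈ φ i := by
    intro x hx
    rw [← hM.cov] at hx
    exact Set.mem_iUnion.1 hx
  have hsub : ∀ i, φ i ⊆ A ∪ S := by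
    intro i
    rw [← hM.cov]
    exact Set.subset_iUnion φ i
  have huniq : ∀ i j x, x ∈ φ i → x ∈ φ j → i = j := by
    intro i j x hi hj
    by_contra h
    exact Set.disjoint_left.1 (hdis i j h) hi hj
  have hSA : ∀ x, x ∈ S → x ∉ A := fun x hx hA => Set.disjoint_left.1 hAS hA hx
  have hrS : ∀ x, x ∈ S → ρ x = x := fun x hx => hM.rtr.off x (hSA x hx)
  have hZ : ∀ j, ¬ (φ j ∩ S).Nonempty → φ j ⊆ Zz A ρ := by
    intro j hj
    rw [m3]
    exact Set.subset_biUnion_of_mem (u := φ) hj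
  -- no vertex of the part of `s` is adjacent to a branch set without elements of `S`
  have hnP : ∀ j, ¬ (φ j ∩ S).Nonempty → ∀ x ∈ φ j, ∀ y, G.Adj x y → ρ y ≠ s := by
    intro j hj x hx y hxy hy
    exact hno ⟨y, hy, x, hZ j hj hx, hxy.symm⟩
  obtain ⟨i, hi⟩ := hcov s (Or.inr hs)
  have hcard : (S \ {s}).ncard = 2 := by
    have := Set.ncard_sdiff_singleton_of_mem hs
    omega
  by_cases hcase : ∀ s' ∈ φ i ∩ S, s' = s
  · -- first case: the branch set of `s` is the part of `s`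
    have hφ : ∀ x ∈ φ i, ρ x = s := fun x hx =>
      hcase _ ⟨hM.inv i x hx, hM.root i ⟨s, hi, hs⟩ x hx⟩
    have hch : ∀ k, ∃ t, k ∈ {k | k ≠ i ∧ (φ k ∩ S).Nonempty} → t ∈ φ k ∧ t ∈ S := by
      intro k
      by_cases hk : (φ k ∩ S).Nonempty
      · obtain ⟨t, ht⟩ := hk
        exact ⟨t, fun _ => ht⟩
      · exact ⟨s, fun h => absurd h.2 hk⟩
    choose c hc using hch
    have hI : {k | k ≠ i ∧ (φ k ∩ S).Nonempty}.ncard ≤ 2 := by
      rw [← hcard]
      refine Set.ncard_le_ncard_of_injOn c ?_ ?_ (Set.toFinite _)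
      · intro k hk
        refine ⟨(hc k hk).2, fun h => hk.1 ?_⟩
        have h1 : c k = s := h
        have h2 := (hc k hk).1
        rw [h1] at h2
        exact huniq k i s h2 hi
      · intro k hk l hl h
        have h1 := (hc k hk).1
        rw [h] at h1
        exact huniq k l _ h1 (hc l hl).1
    obtain ⟨j, hj, hij⟩ := hP10 ι Γ hM.kc i _ hI
    have hjS : ¬ (φ j ∩ S).Nonempty := fun h => hj ⟨(Γ.ne_of_adj hij).symm, h⟩
    obtain ⟨x, hx, y, hy, hxy⟩ := m6 j i hjS hij.symm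
    exact hnP j hjS x hx y hxy (hφ y hy)
  · push Not at hcase
    obtain ⟨s', ⟨hs'i, hs'S⟩, hs's⟩ := hcase
    refine hSt s hs ?_
    set K := rst G (A ∪ S \ {s}) ⊔ cl (S \ {s}) with hK
    have hKe : ∀ x y, (rst G (A ∪ S) ⊔ D).Adj x y → x ≠ s → y ≠ s → K.Adj x y := by
      intro x y h hx hy
      rcases h with h | h
      · have hm : ∀ z, z ∈ A ∪ S → z ≠ s → z ∈ A ∪ S \ {s} := by
          rintro z (hz | hz) hzs
          · exact Or.inl hz
          · exact Or.inr ⟨hz, hzs⟩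
        exact Or.inl ⟨h.1, hm x h.2.1 hx, hm y h.2.2 hy⟩
      · have h1 := hD h
        exact Or.inr ⟨h1.1, ⟨h1.2.1, hx⟩, ⟨h1.2.2, hy⟩⟩
    have hns : ∀ k, k ≠ i → ∀ x ∈ φ k, x ≠ s := by
      intro k hk x hx h
      rw [h] at hx
      exact hk (huniq k i s hx hi)
    -- the fibre of an element of `S` different from `s`
    have hfib : ∀ t ∈ S, t ≠ s → Con K {z | ρ z = t} := by
      intro t ht hts
      have h1 := hM.rtr.fib t
      rw [hrS t ht] at h1
      have hm : ∀ z, ρ z = t → z ∈ A ∪ S \ {s} := by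
        intro z hz
        by_cases hzA : z ∈ A
        · exact Or.inl hzA
        · rw [hM.rtr.off z hzA] at hz
          rw [hz]
          exact Or.inr ⟨ht, hts⟩
      exact con_sub h1 fun x hx y hy h => Or.inl ⟨h, hm x hx, hm y hy⟩
    have hfsub : ∀ t ∈ S, t ∈ φ i → t ≠ s → {z | ρ z = t} ⊆ {x | x ∈ φ i ∧ ρ x ≠ s} := by
      intro t ht hti hts z hz
      have hz' : ρ z = t := hz
      refine ⟨?_, by rw [hz']; exact hts⟩
      by_cases hzA : z ∈ A
      · obtain ⟨j, hj⟩ := hcov z (Or.inl hzA)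
        have h2 := hM.inv j z hj
        rw [hz'] at h2
        rw [huniq i j t hti h2]
        exact hj
      · rw [hM.rtr.off z hzA] at hz'
        rw [hz']
        exact hti
    have hs'P : s' ∈ {x | x ∈ φ i ∧ ρ x ≠ s} := ⟨hs'i, by rw [hrS s' hs'S]; exact hs's⟩
    have hconi : Con K {x | x ∈ φ i ∧ ρ x ≠ s} := by
      refine con_cen s' hs'P ?_
      rintro x ⟨hx, hxs⟩
      have hxS : ρ x ∈ S := hM.root i ⟨s, hi, hs⟩ x hx
      have hxi : ρ x ∈ φ i := hM.inv i x hx
      by_cases he : ρ x = s'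
      · refine ⟨{z | ρ z = s'}, hfsub s' hs'S hs'i hs's, hfib s' hs'S hs's, hrS s' hs'S, he⟩
      · refine ⟨{z | ρ z = ρ x} ∪ {z | ρ z = s'}, ?_, ?_, Or.inr (hrS s' hs'S), Or.inl rfl⟩
        · exact Set.union_subset (hfsub _ hxS hxi hxs) (hfsub s' hs'S hs'i hs's)
        · refine Pool.Agent.Helper51.AJ.con_union (hfib _ hxS hxs) (hfib s' hs'S hs's) ?_
          exact ⟨ρ x, hM.rtr.idp x, s', hrS s' hs'S, Or.inr ⟨he, ⟨hxS, hxs⟩, ⟨hs'S, hs's⟩⟩⟩
    have htouch : ∀ l, l ≠ i → Γ.Adj l i → Tch K (φ l) {x | x ∈ φ i ∧ ρ x ≠ s} := by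
      intro l hl hli
      by_cases hlS : (φ l ∩ S).Nonempty
      · obtain ⟨t, ht, htS⟩ := hlS
        refine ⟨t, ht, s', hs'P, Or.inr ⟨?_, ⟨htS, hns l hl t ht⟩, ⟨hs'S, hs's⟩⟩⟩
        intro h
        rw [← h] at hs'i
        exact hl (huniq l i t ht hs'i)
      · obtain ⟨x, hx, y, hy, hxy⟩ := m6 l i hlS hli
        have hys : ρ y ≠ s := hnP l hlS x hx y hxy
        refine ⟨x, hx, y, ⟨hy, hys⟩, ?_⟩
        refine hKe x y (Or.inl ⟨hxy, hsub l hx, hsub i hy⟩) (hns l hl x hx) ?_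
        intro h
        rw [h] at hys
        exact hys (hrS s hs)
    refine hP6 ι V Γ K (fun k => if k = i then {x | x ∈ φ i ∧ ρ x ≠ s} else φ k) ⟨?_, ?_, ?_⟩ hM.np
    · intro k
      by_cases hk : k = i
      · simp only [if_pos hk]
        exact hconi
      · simp only [if_neg hk]
        exact con_sub (hcon k) fun x hx y hy h => hKe x y h (hns k hk x hx) (hns k hk y hy)
    · intro k l hkl
      have hsb : ∀ k, (if k = i then {x | x ∈ φ i ∧ ρ x ≠ s} else φ k) ⊆ φ k := by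
        intro k
        by_cases hk : k = i
        · rw [if_pos hk, hk]
          exact fun x hx => hx.1
        · rw [if_neg hk]
      exact (hdis k l hkl).mono (hsb k) (hsb l)
    · intro k l hkl
      by_cases hk : k = i
      · have hl : l ≠ i := fun h => Γ.ne_of_adj hkl (hk.trans h.symm)
        simp only [if_pos hk, if_neg hl]
        exact Pool.Agent.Helper51.AJ.tch_symm (htouch l hl (hk ▸ hkl.symm))
      · by_cases hl : l = i
        · simp only [if_neg hk, if_pos hl]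
          exact htouch k hk (hl ▸ hkl)
        · simp only [if_neg hk, if_neg hl]
          obtain ⟨x, hx, y, hy, h⟩ := htch k l hkl
          exact ⟨x, hx, y, hy, hKe x y h (hns k hk x hx) (hns l hl y hy)⟩

end Pool.Agent.Helper36.TS
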