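import Pool.Agent.Helper12.TS.StB
import Pool.Agent.Helper51.AJ.Basic

/-!
# Project TS, module MDQ: the quotient of a model
-/

set_option autoImplicit false

namespace Pool.Agent.Helper36.TS

open Pool.Agent.Helper12.TS
open Pool.Agent.Helper51.AJ (IsMinor Planar Apex ExMinor Con Tch)
open Pool.Agent.Helper12.NK (rst Kc add)

private lemma con_im {V W : Type} {H : SimpleGraph V} {K : SimpleGraph W} (f : V → W) {S : Set V}
    (hS : Con H S) (h : ∀ x ∈ S, ∀ y ∈ S, H.Adj x y → f x = f y ∨ K.Adj (f x) (f y)) :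
    Con K (f '' S) := by
  have key : ∀ u v : S, (H.induce S).Walk u v →
      (K.induce (f '' S)).Reachable ⟨f u, Set.mem_image_of_mem f u.2⟩
        ⟨f v, Set.mem_image_of_mem f v.2⟩ := by
    intro u v w
    induction w with
    | nil => exact SimpleGraph.Reachable.refl _
    | cons hadj _ ih =>
      rename_i a b c _
      have hadj' : H.Adj a.1 b.1 := hadj
      rcases h a.1 a.2 b.1 b.2 hadj' with h1 | h1
      · have h2 : (⟨f a, Set.mem_image_of_mem f a.2⟩ : (f '' S : Set W)) =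
            ⟨f b, Set.mem_image_of_mem f b.2⟩ := Subtype.ext h1
        rw [h2]
        exact ih
      · have h2 : (K.induce (f '' S)).Adj ⟨f a, Set.mem_image_of_mem f a.2⟩
            ⟨f b, Set.mem_image_of_mem f b.2⟩ := h1
        exact h2.reachable.trans ih
  have hS' : (H.induce S).Connected := hS
  obtain ⟨hp, hn⟩ := hS'
  refine ⟨?_⟩
  rintro ⟨_, x, hx, rfl⟩ ⟨_, y, hy, rfl⟩
  obtain ⟨w⟩ := hp ⟨x, hx⟩ ⟨y, hy⟩
  exact key _ _ w

/-- an edge of the big graph with an end outside `T` is an edge of `G` -/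
private lemma edge {V : Type} {G D : SimpleGraph V} {A T : Set V} (hD : D ≤ cl T) {x y : V}
    (hx : x ∉ T) (h : (rst G (A ∪ T) ⊔ D).Adj x y) : G.Adj x y := by
  rcases h with h | h
  · exact h.1
  · exact absurd (hD h).2.1 hx

theorem hMDQ : StPTN → StQUO → StMDQ := by
  intro hP _ V ι _ _ G D A T Γ φ ρ hAT hT hD hM
  obtain ⟨-, -, -, -, -, hP6, hP7, -, -, -⟩ := hP
  obtain ⟨hcon, hdis, htch⟩ := hM.md
  have hcov : ∀ x, x ∈ A ∪ T → ∃ i, x ∈ φ i := by
    intro x hx
    rw [← hM.cov] at hx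
    exact Set.mem_iUnion.1 hx
  have hsub : ∀ i, φ i ⊆ A ∪ T := by
    intro i
    rw [← hM.cov]
    exact Set.subset_iUnion φ i
  have huniq : ∀ i j x, x ∈ φ i → x ∈ φ j → i = j := by
    intro i j x hi hj
    by_contra h
    exact Set.disjoint_left.1 (hdis i j h) hi hj
  have hTA : ∀ x, x ∈ T → x ∉ A := fun x hx hA => Set.disjoint_left.1 hAT hA hx
  have hrT : ∀ x, x ∈ T → ρ x = x := fun x hx => hM.rtr.off x (hTA x hx)
  have hrm : ∀ x, x ∈ A ∪ T → ρ x ∈ Rr A ρ ∪ T := by
    intro x hx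
    rcases hx with hx | hx
    · rcases hM.rtr.inn x hx with h | h
      · exact Or.inl ⟨h, hM.rtr.idp x⟩
      · exact Or.inr h
    · rw [hrT x hx]
      exact Or.inr hx
  have hnT : ∀ i, ¬ (φ i ∩ T).Nonempty → ∀ x ∈ φ i, x ∉ T := fun i hi x hx hxT => hi ⟨x, hx, hxT⟩
  -- edges of the big graph give edges of the quotient
  have hedge : ∀ x y, (rst G (A ∪ T) ⊔ D).Adj x y → ρ x ≠ ρ y →
      (rst (quo G Set.univ ρ) (Rr A ρ ∪ T) ⊔ D).Adj (ρ x) (ρ y) := by
    intro x y h hne
    rcases h with h | h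
    · exact Or.inl ⟨⟨hne, x, Set.mem_univ _, y, Set.mem_univ _, rfl, rfl, h.1⟩, hrm x h.2.1, hrm y h.2.2⟩
    · have h1 := hD h
      rw [hrT x h1.2.1, hrT y h1.2.2]
      exact Or.inr h
  refine ⟨?_, ?_, ?_, ?_, ?_, ?_, ?_⟩
  · refine hP6 ι V Γ _ (fun i => ρ '' φ i) ⟨?_, ?_, ?_⟩ hM.np
    · intro i
      refine con_im ρ (hcon i) fun x _ y _ h => ?_
      by_cases hne : ρ x = ρ y
      · exact Or.inl hne
      · exact Or.inr (hedge x y h hne)
    · intro i j hij
      rw [Set.disjoint_left]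
      rintro _ ⟨x, hx, rfl⟩ ⟨y, hy, hxy⟩
      have h1 := hM.inv i x hx
      have h2 := hM.inv j y hy
      rw [hxy] at h2
      exact hij (huniq i j _ h1 h2)
    · intro i j hij
      obtain ⟨x, hx, y, hy, h⟩ := htch i j hij
      refine ⟨ρ x, ⟨x, hx, rfl⟩, ρ y, ⟨y, hy, rfl⟩, hedge x y h fun hne => ?_⟩
      have h1 := hM.inv i x hx
      have h2 := hM.inv j y hy
      rw [← hne] at h2
      exact Γ.ne_of_adj hij (huniq i j _ h1 h2)
  · obtain ⟨t, ht⟩ := hT
    obtain ⟨i₀, hi₀⟩ := hcov t (Or.inr ht)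
    have hchoose : ∀ r, ∃ i, r ∈ Rr A ρ → r ∈ φ i := by
      intro r
      by_cases hr : r ∈ Rr A ρ
      · obtain ⟨i, hi⟩ := hcov r (Or.inl hr.1)
        exact ⟨i, fun _ => hi⟩
      · exact ⟨i₀, fun h => absurd h hr⟩
    choose c hc using hchoose
    have hcT : ∀ r ∈ Rr A ρ, ¬ (φ (c r) ∩ T).Nonempty := by
      intro r hr h
      have h1 := hM.root (c r) h r (hc r hr)
      rw [hr.2] at h1
      exact hTA r h1 hr.1
    have h1 : (Rr A ρ).ncard ≤ ({i₀}ᶜ : Set ι).ncard := by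
      refine Set.ncard_le_ncard_of_injOn c ?_ ?_ (Set.toFinite _)
      · intro r hr h
        have h2 : c r = i₀ := h
        refine hcT r hr ?_
        rw [h2]
        exact ⟨t, hi₀, ht⟩
      · intro r hr r' hr' h
        have h2 := hM.sgl (c r) (hcT r hr) r (hc r hr) r' (by rw [h]; exact hc r' hr')
        rwa [hr.2, hr'.2] at h2
    have h2 := Set.ncard_add_ncard_compl ({i₀} : Set ι)
    rw [Set.ncard_singleton] at h2
    have h3 := hM.card
    omega
  · ext z
    simp only [Set.mem_iUnion, exists_prop]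
    constructor
    · rintro ⟨hz, hz2⟩
      obtain ⟨i, hi⟩ := hcov z (Or.inl hz)
      exact ⟨i, fun h => hTA _ (hM.root i h z hi) hz2, hi⟩
    · rintro ⟨i, hi, hz⟩
      have h1 : z ∈ A := (hsub i hz).resolve_right (hnT i hi z hz)
      have h2 := hM.inv i z hz
      exact ⟨h1, (hsub i h2).resolve_right (hnT i hi _ h2)⟩
  · intro i hi x hx
    ext z
    constructor
    · intro hz
      have hz' : ρ z = ρ x := hz
      have h1 := hM.inv i x hx
      by_cases hzA : z ∈ A
      · obtain ⟨j, hj⟩ := hcov z (Or.inl hzA)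
        have h2 := hM.inv j z hj
        rw [hz'] at h2
        rw [huniq i j _ h1 h2]
        exact hj
      · rw [hM.rtr.off z hzA] at hz'
        rw [hz']
        exact h1
    · intro hz
      exact hM.sgl i hi z hz x hx
  · intro K hK hKc
    have h1 := hP7 ι V Γ _ φ K hM.md hKc
    have h2 := con_im (K := G) id h1 fun x hx y _ h => by
      obtain ⟨i, hi, hxi⟩ := Set.mem_iUnion₂.1 hx
      exact Or.inr (edge hD (hnT i (hK hi) x hxi) h)
    rwa [Set.image_id] at h2
  · intro i j hi hij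
    obtain ⟨x, hx, y, hy, h⟩ := htch i j hij
    exact ⟨x, hx, y, hy, edge hD (hnT i hi x hx) h⟩
  · intro i hi x hx
    exact hM.root i hi x hx

end Pool.Agent.Helper36.TS
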